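import Pool.Agent.Y593.LC.HC
set_option autoImplicit false
set_option synthInstance.maxHeartbeats 400000
open Set Filter Topology
open scoped ContDiff

/-!
# Smoothness and closeness in `C^k` on the shell (job HF-C2 of helper593)

The proofs of `iter` and `unif` are adapted from `Pool.Agent.Y593.LC.contDiff_iter` and
`Pool.Agent.Y593.LC.unif`.
-/
namespace Pool.Agent.Y604.HF2

open Pool.Agent.H660R3 Pool.Agent.H660R3.Stair Real Pool.Agent.Y593.LC.HC

theorem iter {P E : Type} [NormedAddCommGroup P] [NormedSpace ℝ P]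
    [NormedAddCommGroup E] [NormedSpace ℝ E] {H : P × E → ℝ} {O : Set E}
    (hH : ∀ p z, z ∈ O → ContDiffAt ℝ ∞ H (p, z)) (j : ℕ) :
    ∀ p z, z ∈ O →
      ContDiffAt ℝ ∞ (fun p : P × E => iteratedFDeriv ℝ j (fun z => H (p.1, z)) p.2) (p, z) := by
  induction j with
  | zero =>
    intro p z hz
    have h : (fun p : P × E => iteratedFDeriv ℝ 0 (fun z => H (p.1, z)) p.2) =
        fun p => (continuousMultilinearCurryFin0 ℝ E ℝ).symm (H p) := by
      funext p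
      rw [iteratedFDeriv_zero_eq_comp]
      rfl
    rw [h]
    exact (hH p z hz).continuousLinearMap_comp
      ((continuousMultilinearCurryFin0 ℝ E ℝ).symm : _ →L[ℝ] E [×0]→L[ℝ] ℝ)
  | succ j ih =>
    intro p z hz
    have h : (fun p : P × E => iteratedFDeriv ℝ (j + 1) (fun z => H (p.1, z)) p.2) =
        fun p => (continuousMultilinearCurryLeftEquiv ℝ (fun _ : Fin (j + 1) => E) ℝ).symm
          (fderiv ℝ ((fun (q : P × E) (w : E) => iteratedFDeriv ℝ j (fun z => H (q.1, z)) w) p) p.2) := by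
      funext p
      rw [iteratedFDeriv_succ_eq_comp_left]
      rfl
    rw [h]
    have h2 : (Function.uncurry fun (q : P × E) (w : E) => iteratedFDeriv ℝ j (fun z => H (q.1, z)) w) =
        (fun p : P × E => iteratedFDeriv ℝ j (fun z => H (p.1, z)) p.2) ∘
          fun r : (P × E) × E => (r.1.1, r.2) := by
      funext r
      rfl
    have h3 : ContDiffAt ℝ ∞ (fun p : P × E =>
        fderiv ℝ ((fun (q : P × E) (w : E) => iteratedFDeriv ℝ j (fun z => H (q.1, z)) w) p) p.2)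
        (p, z) := by
      refine ContDiffAt.fderiv (m := ∞) (n := ∞) ?_ contDiffAt_snd (by simp)
      rw [h2]
      exact ContDiffAt.comp ((p, z), z) (ih p z hz)
        ((contDiff_fst.comp contDiff_fst).prodMk contDiff_snd).contDiffAt
    exact h3.continuousLinearMap_comp
      ((continuousMultilinearCurryLeftEquiv ℝ (fun _ : Fin (j + 1) => E) ℝ).symm :
        _ →L[ℝ] E [×(j + 1)]→L[ℝ] ℝ)

theorem unif {n : ℕ} {H : (ℝ × EE n) × EE n → ℝ} {O S : Set (EE n)}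
    (hH : ∀ p z, z ∈ O → ContDiffAt ℝ ∞ H (p, z)) (hS : IsCompact S) (hSO : S ⊆ O)
    (h0 : ∀ u z, H ((0, u), z) = 0) (j : ℕ) {δ : ℝ} (hδ : 0 < δ) :
    ∀ᶠ ε in 𝓝 (0 : ℝ), ∀ u : EE n, ‖u‖ ≤ 1 → ∀ z ∈ S,
      ‖iteratedFDeriv ℝ j (fun z => H ((ε, u), z)) z‖ < δ := by
  obtain ⟨N, hN, hc⟩ : ∃ N : (ℝ × EE n) × EE n → ℝ,
      (∀ (ε : ℝ) (u z : EE n), N ((ε, u), z) = ‖iteratedFDeriv ℝ j (fun z => H ((ε, u), z)) z‖) ∧
      ∀ p z, z ∈ O → ContinuousAt N (p, z) :=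
    ⟨fun p => ‖iteratedFDeriv ℝ j (fun z => H (p.1, z)) p.2‖, fun _ _ _ => rfl,
      fun p z hz => (iter hH j p z hz).continuousAt.norm⟩
  have hK : IsCompact (Metric.closedBall (0 : EE n) 1 ×ˢ S) :=
    (isCompact_closedBall 0 1).prod hS
  have key : ∀ᶠ ε in 𝓝 (0 : ℝ), ∀ w ∈ Metric.closedBall (0 : EE n) 1 ×ˢ S,
      N ((ε, w.1), w.2) < δ := by
    refine hK.eventually_forall_of_forall_eventually fun w hw => ?_
    have h0' : Continuous fun q : ℝ × (EE n × EE n) => ((q.1, q.2.1), q.2.2) :=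
      (continuous_fst.prodMk (continuous_fst.comp continuous_snd)).prodMk
        (continuous_snd.comp continuous_snd)
    have h1 : ContinuousAt (fun q : ℝ × (EE n × EE n) => N ((q.1, q.2.1), q.2.2)) (0, w) :=
      ContinuousAt.comp (f := fun q : ℝ × (EE n × EE n) => ((q.1, q.2.1), q.2.2))
        (x := (0, w)) (hc (0, w.1) w.2 (hSO hw.2)) h0'.continuousAt
    have h2 : N ((0, w.1), w.2) < δ := by
      have : (fun z => H ((0, w.1), z)) = fun _ => (0 : ℝ) := by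
        funext z
        exact h0 _ _
      rw [hN, this]
      simpa [iteratedFDeriv_fun_zero] using hδ
    exact h1.eventually_lt continuousAt_const h2
  filter_upwards [key] with ε hε u hu z hz
  have h1 := hε (u, z) ⟨by simpa using hu, hz⟩
  rw [← hN]
  exact h1

theorem n2_pos {y : EE 4} (h : y ≠ 0) : 0 < n2 y := by
  by_contra hc
  push Not at hc
  apply h
  unfold n2 at hc
  have h0 := sq_nonneg (y 0)
  have h1 := sq_nonneg (y 1)
  have h2 := sq_nonneg (y 2)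
  have h3 := sq_nonneg (y 3)
  have e0 : y 0 = 0 := pow_eq_zero_iff (two_ne_zero) |>.1 (by linarith)
  have e1 : y 1 = 0 := pow_eq_zero_iff (two_ne_zero) |>.1 (by linarith)
  have e2 : y 2 = 0 := pow_eq_zero_iff (two_ne_zero) |>.1 (by linarith)
  have e3 : y 3 = 0 := pow_eq_zero_iff (two_ne_zero) |>.1 (by linarith)
  ext i
  fin_cases i
  · exact e0
  · exact e1
  · exact e2
  · exact e3

theorem co (i : Fin 4) : ContDiff ℝ ∞ (fun y : EE 4 => y i) :=
  (EuclideanSpace.proj i : EE 4 →L[ℝ] ℝ).contDiff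

theorem n2_smooth : ContDiff ℝ ∞ n2 := by
  unfold n2
  exact ((((co 0).pow 2).add ((co 1).pow 2)).add ((co 2).pow 2)).add ((co 3).pow 2)

theorem th_smooth {y : EE 4} (h : y ≠ 0) : ContDiffAt ℝ ∞ th y := by
  unfold th
  exact (n2_smooth.contDiffAt.log (n2_pos h).ne').div_const _

theorem WW_smooth {y : EE 4} (h : y ≠ 0) : ContDiffAt ℝ ∞ WW y := by
  unfold WW
  refine ContDiffAt.sum fun i _ => ?_
  refine ContDiffAt.mul ?_ ?_
  · exact ((co i).contDiffAt.pow 2).div n2_smooth.contDiffAt (n2_pos h).ne'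
  · exact ContDiffAt.comp y hs_smooth.contDiffAt ((th_smooth h).sub contDiffAt_const)

theorem bl_smooth {q : (ℝ × EE 4) × EE 4} (h : q.2 ≠ 0) :
    ContDiffAt ℝ ∞ (fun q : (ℝ × EE 4) × EE 4 => bl q.1.1 q.2 q.1.2) q := by
  have c2 : ∀ i : Fin 4, ContDiff ℝ ∞ (fun q : (ℝ × EE 4) × EE 4 => q.2 i) := fun i =>
    (co i).comp contDiff_snd
  have c1 : ∀ i : Fin 4, ContDiff ℝ ∞ (fun q : (ℝ × EE 4) × EE 4 => q.1.2 i) := fun i =>
    (co i).comp (contDiff_snd.comp contDiff_fst)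
  have hj : ContDiff ℝ ∞ (fun q : (ℝ × EE 4) × EE 4 => jp q.2 q.1.2) := by
    unfold jp
    exact (((c2 0).mul (c1 1)).sub ((c2 1).mul (c1 0))).add
      (((c2 2).mul (c1 3)).sub ((c2 3).mul (c1 2)))
  have hn : ContDiffAt ℝ ∞ (fun q : (ℝ × EE 4) × EE 4 => n2 q.2) q :=
    (n2_smooth.comp contDiff_snd).contDiffAt
  have hW : ContDiffAt ℝ ∞ (fun q : (ℝ × EE 4) × EE 4 => WW q.2) q :=
    ContDiffAt.comp (g := WW) (f := fun q : (ℝ × EE 4) × EE 4 => q.2) q (WW_smooth h)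
      contDiffAt_snd
  have he : ContDiff ℝ ∞ (fun q : (ℝ × EE 4) × EE 4 => q.1.1) := contDiff_fst.comp contDiff_fst
  unfold bl
  exact (he.contDiffAt.mul hW).exp.mul (hj.contDiffAt.div hn (n2_pos h).ne')

theorem bl_contDiffAt {y : EE 4} (h : y ≠ 0) (ε : ℝ) (u : EE 4) :
    ContDiffAt ℝ ∞ (fun z => bl ε z u) y :=
  ContDiffAt.comp (g := fun q : (ℝ × EE 4) × EE 4 => bl q.1.1 q.2 q.1.2)
    (f := fun z : EE 4 => ((ε, u), z)) y (bl_smooth (q := ((ε, u), y)) h)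
    (contDiff_const.prodMk contDiff_id).contDiffAt

theorem al_contDiffAt {y : EE 4} (h : y ≠ 0) (u : EE 4) : ContDiffAt ℝ ∞ (fun z => al z u) y := by
  unfold al
  have hi : ContDiff ℝ ∞ (fun z : EE 4 => ip z u) := by
    unfold ip
    exact ((((co 0).mul contDiff_const).add ((co 1).mul contDiff_const)).add
      ((co 2).mul contDiff_const)).add ((co 3).mul contDiff_const)
  refine hi.contDiffAt.div (contDiffAt_const.mul n2_smooth.contDiffAt) ?_
  exact mul_ne_zero (Real.log_pos (by norm_num)).ne' (n2_pos h).ne'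

/-- closeness in `C^k` on the shell `1 ≤ |y| ≤ 2` -/
theorem bl_close (k : ℕ) {δ : ℝ} (hδ : 0 < δ) : ∀ᶠ ε in 𝓝 (0 : ℝ), ∀ y : EE 4, 1 ≤ ‖y‖ → ‖y‖ ≤ 2 →
    ∀ u : EE 4, ‖u‖ ≤ 1 → ∀ j ≤ k,
      ‖iteratedFDeriv ℝ j (fun z => bl ε z u - bl 0 z u) y‖ ≤ δ := by
  have hS : IsCompact (Metric.closedBall (0 : EE 4) 2 ∩ {y | 1 ≤ ‖y‖}) :=
    (isCompact_closedBall 0 2).inter_right (isClosed_le continuous_const continuous_norm)
  have hSO : Metric.closedBall (0 : EE 4) 2 ∩ {y | 1 ≤ ‖y‖} ⊆ {y : EE 4 | y ≠ 0} := by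
    rintro y ⟨_, hy⟩ rfl
    have h1 : (1 : ℝ) ≤ ‖(0 : EE 4)‖ := hy
    rw [norm_zero] at h1
    linarith
  have hH : ∀ (p : ℝ × EE 4) (z : EE 4), z ∈ {y : EE 4 | y ≠ 0} →
      ContDiffAt ℝ ∞ (fun q : (ℝ × EE 4) × EE 4 => bl q.1.1 q.2 q.1.2 - bl 0 q.2 q.1.2) (p, z) := by
    intro p z hz
    refine (bl_smooth (q := (p, z)) hz).sub ?_
    exact ContDiffAt.comp (g := fun q : (ℝ × EE 4) × EE 4 => bl q.1.1 q.2 q.1.2)
      (f := fun q : (ℝ × EE 4) × EE 4 => ((0, q.1.2), q.2)) (p, z)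
      (bl_smooth (q := ((0, p.2), z)) hz)
      ((contDiff_const.prodMk (contDiff_snd.comp contDiff_fst)).prodMk contDiff_snd).contDiffAt
  have h := fun j : ℕ => unif (n := 4)
    (H := fun q => bl q.1.1 q.2 q.1.2 - bl 0 q.2 q.1.2) hH hS hSO (fun u z => sub_self _) j hδ
  have h2 : ∀ᶠ ε in 𝓝 (0 : ℝ), ∀ j ∈ Finset.range (k + 1), ∀ u : EE 4, ‖u‖ ≤ 1 →
      ∀ z ∈ Metric.closedBall (0 : EE 4) 2 ∩ {y | 1 ≤ ‖y‖},
      ‖iteratedFDeriv ℝ j (fun z => bl ε z u - bl 0 z u) z‖ < δ :=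
    (Filter.eventually_all_finset _).2 fun j _ => h j
  filter_upwards [h2] with ε hε y h1 h2 u hu j hj
  exact (hε j (Finset.mem_range.2 (by omega)) u hu y ⟨by simpa using h2, h1⟩).le

end Pool.Agent.Y604.HF2
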