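import Pool.Agent.Results.MP_3387b7_co.NoStraightLine

/-!
# Straight-line representations of planar linear hypergraphs: all sequences of edge sizes

Tools: padding the edges with private vertices, translated copies.
-/

set_option autoImplicit false

namespace Pool.Agent.Y604.SLR

open Pool.Agent.Results.MP_3387b7_co Filter Topology

/-- a straight drawing of the incidence graph of the family `E` -/
structure SD {V I : Type} (E : I → Finset V) (pos : V ⊕ I → ℝ × ℝ) : Prop where
  inj : Function.Injective pos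
  thru : ∀ i v, v ∈ E i → ∀ z, pos z ∈ segment ℝ (pos (Sum.inl v)) (pos (Sum.inr i)) →
    z = Sum.inl v ∨ z = Sum.inr i
  meet : ∀ i v, v ∈ E i → ∀ j w, w ∈ E j → ¬ (v = w ∧ i = j) →
    ∀ t ∈ segment ℝ (pos (Sum.inl v)) (pos (Sum.inr i)),
      t ∈ segment ℝ (pos (Sum.inl w)) (pos (Sum.inr j)) → ∃ z, t = pos z

/-- infinitely many slopes which are not slopes of differences of the given points -/
theorem slopes {Z : Type} [Finite Z] (pos : Z → ℝ × ℝ) (hp : Function.Injective pos) :
    ∃ T : ℕ → ℝ, Function.Injective T ∧ (∀ j, 0 ≤ T j ∧ T j ≤ 1) ∧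
      ∀ j z z' (l : ℝ), z ≠ z' → pos z' ≠ pos z + l • ((1 : ℝ), T j) := by
  set F : Set ℝ := Set.range (fun q : Z × Z =>
    ((pos q.2).2 - (pos q.1).2) / ((pos q.2).1 - (pos q.1).1)) with hF
  have hfin : F.Finite := Set.finite_range _
  have hinf : (Set.Icc (0 : ℝ) 1 \ F).Infinite := (Set.Icc_infinite zero_lt_one).sdiff hfin
  refine ⟨fun j => (hinf.natEmbedding _ j : ℝ), ?_, ?_, ?_⟩
  · intro a b h
    exact (hinf.natEmbedding _).injective (Subtype.ext h)
  · intro j
    exact (hinf.natEmbedding _ j).2.1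
  · intro j z z' l hz h
    refine (hinf.natEmbedding _ j).2.2 ⟨(z, z'), ?_⟩
    have h1 := congrArg Prod.fst h
    have h2 := congrArg Prod.snd h
    simp only [Prod.fst_add, Prod.snd_add, Prod.smul_fst, Prod.smul_snd, smul_eq_mul, mul_one]
      at h1 h2
    have hl : l ≠ 0 := by
      rintro rfl
      rw [zero_smul, add_zero] at h
      exact hz (hp h).symm
    show ((pos z').2 - (pos z).2) / ((pos z').1 - (pos z).1) = _
    rw [h1, h2, add_sub_cancel_left, add_sub_cancel_left, mul_div_cancel_left₀ _ hl]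

theorem isClosed_seg (a b : ℝ × ℝ) : IsClosed (segment ℝ a b) := by
  rw [segment_eq_image]
  refine (isCompact_Icc.image ?_).isClosed
  fun_prop

/-- a small radius -/
theorem radius {V I : Type} [Finite V] [Finite I] {E : I → Finset V} {pos : V ⊕ I → ℝ × ℝ}
    (h : SD E pos) : ∃ e : ℝ, 0 < e ∧
      (∀ i z, z ≠ Sum.inr i → 2 * e < dist (pos (Sum.inr i)) (pos z)) ∧
      (∀ i i' v, i' ≠ i → v ∈ E i' →
        ∀ t ∈ segment ℝ (pos (Sum.inl v)) (pos (Sum.inr i')), e < dist t (pos (Sum.inr i))) := by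
  have h1 : ∀ᶠ e in 𝓝[>] (0 : ℝ), 0 < e := eventually_mem_nhdsWithin
  have small : ∀ {d : ℝ}, 0 < d → ∀ᶠ e in 𝓝[>] (0 : ℝ), e < d := fun {d} hd =>
    eventually_nhdsWithin_of_eventually_nhds (eventually_lt_nhds hd)
  have h2 : ∀ᶠ e in 𝓝[>] (0 : ℝ), ∀ i z, z ≠ Sum.inr i →
      2 * e < dist (pos (Sum.inr i)) (pos z) := by
    rw [eventually_all]; intro i
    rw [eventually_all]; intro z
    by_cases hz : z = Sum.inr i
    · exact Eventually.of_forall fun e hc => absurd hz hc
    · have hd : 0 < dist (pos (Sum.inr i)) (pos z) :=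
        dist_pos.2 fun hc => hz (h.inj hc).symm
      filter_upwards [small (half_pos hd)] with e he _
      linarith
  have h3 : ∀ᶠ e in 𝓝[>] (0 : ℝ), ∀ i i' v, i' ≠ i → v ∈ E i' →
      ∀ t ∈ segment ℝ (pos (Sum.inl v)) (pos (Sum.inr i')), e < dist t (pos (Sum.inr i)) := by
    rw [eventually_all]; intro i
    rw [eventually_all]; intro i'
    rw [eventually_all]; intro v
    by_cases hc : i' ≠ i ∧ v ∈ E i'
    · have hn : pos (Sum.inr i) ∈ (segment ℝ (pos (Sum.inl v)) (pos (Sum.inr i')))ᶜ := by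
        intro hm
        rcases h.thru i' v hc.2 _ hm with h4 | h4
        · cases h4
        · exact hc.1 (Sum.inr.inj h4).symm
      obtain ⟨d, hd, hb⟩ := Metric.isOpen_iff.1 (isClosed_seg _ _).isOpen_compl _ hn
      filter_upwards [small hd] with e he _ _ t ht
      by_contra hlt
      push Not at hlt
      exact hb (Metric.mem_ball.2 (lt_of_le_of_lt hlt he)) ht
    · exact Eventually.of_forall fun e ha hb => absurd ⟨ha, hb⟩ hc
  obtain ⟨e, he⟩ := (h1.and (h2.and h3)).exists
  exact ⟨e, he.1, he.2.1, he.2.2⟩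

/-- the padded family: `c i` private vertices are added to the edge `i` -/
def pad {V I : Type} (E : I → Finset V) (c : I → ℕ) (i : I) :
    Finset (V ⊕ (Σ i : I, Fin (c i))) :=
  (E i).disjSum ((Finset.univ : Finset (Fin (c i))).map ⟨Sigma.mk i, sigma_mk_injective⟩)

theorem inl_mem_pad {V I : Type} {E : I → Finset V} {c : I → ℕ} {i : I} {v : V} :
    Sum.inl v ∈ pad E c i ↔ v ∈ E i := by
  rw [pad, Finset.inl_mem_disjSum]

theorem inr_mem_pad {V I : Type} {E : I → Finset V} {c : I → ℕ} {i : I}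
    {s : Σ i : I, Fin (c i)} : Sum.inr s ∈ pad E c i ↔ s.1 = i := by
  rw [pad, Finset.inr_mem_disjSum, Finset.mem_map]
  constructor
  · rintro ⟨j, -, rfl⟩; rfl
  · rintro rfl; exact ⟨s.2, Finset.mem_univ _, rfl⟩

theorem card_pad {V I : Type} (E : I → Finset V) (c : I → ℕ) (i : I) :
    (pad E c i).card = (E i).card + c i := by
  rw [pad, Finset.card_disjSum, Finset.card_map, Finset.card_univ, Fintype.card_fin]

theorem smul_dir_norm {T a : ℝ} (h0 : 0 ≤ T) (h1 : T ≤ 1) : ‖a • ((1 : ℝ), T)‖ = |a| := by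
  rw [norm_smul, Real.norm_eq_abs, Prod.norm_def]
  simp [abs_of_nonneg h0, h1]

/-- the point with parameter `a` on the ray of slope `T` from `x` -/
def rp (x : ℝ × ℝ) (T a : ℝ) : ℝ × ℝ := x + a • ((1 : ℝ), T)

theorem mem_short {x t : ℝ × ℝ} {T e : ℝ} (he : 0 < e)
    (ht : t ∈ segment ℝ (rp x T e) x) : ∃ a, 0 ≤ a ∧ a ≤ e ∧ t = rp x T a := by
  obtain ⟨u, v, hu, hv, huv, rfl⟩ := ht
  refine ⟨u * e, by positivity, by nlinarith, ?_⟩
  have hv' : v = 1 - u := by linarith
  subst hv'
  simp only [rp]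
  module

theorem dist_rp {x : ℝ × ℝ} {T a : ℝ} (h0 : 0 ≤ T) (h1 : T ≤ 1) (ha : 0 ≤ a) :
    dist (rp x T a) x = a := by
  rw [rp, dist_eq_norm, add_sub_cancel_left, smul_dir_norm h0 h1, abs_of_nonneg ha]

theorem rp_inj {x : ℝ × ℝ} {T T' a a' : ℝ} (h : rp x T a = rp x T' a') :
    a = a' ∧ (a = 0 ∨ T = T') := by
  have h1 := congrArg Prod.fst h
  have h2 := congrArg Prod.snd h
  simp only [rp, Prod.fst_add, Prod.snd_add, Prod.smul_fst, Prod.smul_snd, smul_eq_mul, mul_one]
    at h1 h2
  have ha : a = a' := by linarith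
  subst ha
  refine ⟨rfl, ?_⟩
  have h3 : a * (T - T') = 0 := by linarith
  rcases mul_eq_zero.1 h3 with h4 | h4
  · exact Or.inl h4
  · exact Or.inr (by linarith)

/-- Padding with private vertices keeps a straight drawing. -/
theorem pad_SD {V I : Type} [Finite V] [Finite I] {E : I → Finset V} {pos : V ⊕ I → ℝ × ℝ}
    (h : SD E pos) (c : I → ℕ) :
    ∃ pos' : (V ⊕ (Σ i : I, Fin (c i))) ⊕ I → ℝ × ℝ, SD (pad E c) pos' := by
  obtain ⟨T, Tinj, T01, Tno⟩ := slopes pos h.inj
  obtain ⟨e, he, e1, e2⟩ := radius h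
  set f : (Σ i : I, Fin (c i)) → ℝ × ℝ := fun s => rp (pos (Sum.inr s.1)) (T s.2) e with hf
  have fd : ∀ s, dist (f s) (pos (Sum.inr s.1)) = e := fun s => dist_rp (T01 _).1 (T01 _).2 he.le
  -- a point of a short segment
  have key : ∀ {i : I} {z : V ⊕ I} {j : ℕ} {a : ℝ}, z ≠ Sum.inr i →
      pos z ≠ rp (pos (Sum.inr i)) (T j) a := fun {i z j a} hz =>
    Tno j (Sum.inr i) z a (Ne.symm hz)
  have fne : ∀ s z, f s ≠ pos z := by
    intro s z hc
    by_cases hz : z = Sum.inr s.1
    · subst hz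
      have := fd s
      rw [hc, dist_self] at this
      linarith
    · exact key hz hc.symm
  have far : ∀ {i i' : I} {t : ℝ × ℝ}, dist t (pos (Sum.inr i)) ≤ e →
      dist t (pos (Sum.inr i')) ≤ e → i = i' := by
    intro i i' t h1 h2
    by_contra hne
    have h3 := e1 i (Sum.inr i') (fun hc => hne (Sum.inr.inj hc).symm)
    have h4 := dist_triangle_left (pos (Sum.inr i)) (pos (Sum.inr i')) t
    linarith
  have finj : Function.Injective f := by
    rintro ⟨i, j⟩ ⟨i', j'⟩ hc
    have h1 := (fd ⟨i, j⟩).le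
    have h2 := (fd ⟨i', j'⟩).le
    rw [← hc] at h2
    have hi : i = i' := far h1 h2
    subst hi
    rcases (rp_inj hc).2 with h3 | h3
    · exact absurd h3 he.ne'
    · have := Fin.ext (Tinj h3)
      subst this; rfl
  -- new segments against everything
  have newold : ∀ (s : Σ i : I, Fin (c i)) (i' : I) (v : V), v ∈ E i' → ∀ t,
      t ∈ segment ℝ (f s) (pos (Sum.inr s.1)) →
      t ∈ segment ℝ (pos (Sum.inl v)) (pos (Sum.inr i')) → t = pos (Sum.inr s.1) := by
    intro s i' v hv t ht ht'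
    obtain ⟨a, ha0, ha, hta⟩ := mem_short he ht
    by_cases hi : i' = s.1
    · subst hi
      obtain ⟨b, b', hb, hb', hbb, hbt⟩ := ht'
      have hb'' : b' = 1 - b := by linarith
      subst hb''
      have h2 : b • (pos (Sum.inl v) - pos (Sum.inr s.1)) = a • ((1 : ℝ), T s.2) := by
        have : rp (pos (Sum.inr s.1)) (T s.2) a = b • pos (Sum.inl v) +
          (1 - b) • pos (Sum.inr s.1) := by rw [hbt, hta]
        rw [rp] at this
        have h3 : a • ((1 : ℝ), T s.2) = b • pos (Sum.inl v) +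
          (1 - b) • pos (Sum.inr s.1) - pos (Sum.inr s.1) := by rw [← this]; abel
        rw [h3]; module
      rcases eq_or_ne b 0 with hb0 | hb0
      · subst hb0
        rw [← hbt]; simp
      · exfalso
        refine key (i := s.1) (z := Sum.inl v) (j := s.2) (a := b⁻¹ * a) (by simp) ?_
        rw [rp, mul_smul, ← h2, smul_smul, inv_mul_cancel₀ hb0, one_smul]
        abel
    · exfalso
      have h2 := e2 s.1 i' v hi hv t ht'
      rw [hta, dist_rp (T01 _).1 (T01 _).2 ha0] at h2
      linarith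
  have newnew : ∀ (s s' : Σ i : I, Fin (c i)), s ≠ s' → ∀ t,
      t ∈ segment ℝ (f s) (pos (Sum.inr s.1)) →
      t ∈ segment ℝ (f s') (pos (Sum.inr s'.1)) → t = pos (Sum.inr s.1) := by
    rintro ⟨i, j⟩ ⟨i', j'⟩ hne t ht ht'
    obtain ⟨a, ha0, ha, hta⟩ := mem_short he ht
    obtain ⟨a', ha0', ha', hta'⟩ := mem_short he ht'
    have h1 : dist t (pos (Sum.inr i)) ≤ e := by
      rw [hta, dist_rp (T01 _).1 (T01 _).2 ha0]; exact ha
    have h2 : dist t (pos (Sum.inr i')) ≤ e := by
      rw [hta', dist_rp (T01 _).1 (T01 _).2 ha0']; exact ha'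
    have hi : i = i' := far h1 h2
    subst hi
    rw [hta] at hta'
    rcases (rp_inj hta').2 with h3 | h3
    · subst h3
      rw [hta]; simp [rp]
    · exfalso
      apply hne
      have := Fin.ext (Tinj h3)
      subst this; rfl
  refine ⟨Sum.elim (Sum.elim (pos ∘ Sum.inl) f) (pos ∘ Sum.inr), ?_, ?_, ?_⟩
  · rintro ((v | s) | i) ((w | s') | i') hc
    · have := h.inj hc; rw [Sum.inl.inj this]
    · exact absurd hc.symm (fne s' _)
    · exact absurd (h.inj hc) (by simp)
    · exact absurd hc (fne s _)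
    · rw [finj hc]
    · exact absurd hc (fne s _)
    · exact absurd (h.inj hc) (by simp)
    · exact absurd hc.symm (fne s' _)
    · have := h.inj hc; rw [Sum.inr.inj this]
  · rintro i (v | s) hv z hz
    · rw [inl_mem_pad] at hv
      rcases z with (w | s') | i'
      · rcases h.thru i v hv (Sum.inl w) hz with h1 | h1
        · left; rw [Sum.inl.inj h1]
        · cases h1
      · exfalso
        have h1 := newold s' i v hv (f s') (left_mem_segment _ _ _) hz
        exact fne s' _ h1
      · rcases h.thru i v hv (Sum.inr i') hz with h1 | h1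
        · cases h1
        · right; rw [Sum.inr.inj h1]
    · rw [inr_mem_pad] at hv
      subst hv
      rcases z with (w | s') | i'
      · exfalso
        obtain ⟨a, ha0, ha, hta⟩ := mem_short he hz
        exact key (z := Sum.inl w) (by simp) hta
      · left
        by_contra hne
        have hne' : s ≠ s' := fun hc => hne (by rw [hc])
        have h1 := newnew s s' hne' (f s') hz (left_mem_segment _ _ _)
        exact fne s' _ h1
      · right
        by_contra hne
        obtain ⟨a, ha0, ha, hta⟩ := mem_short he hz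
        exact key (z := Sum.inr i') (fun hc => hne (by rw [Sum.inr.inj hc])) hta
  · rintro i (v | s) hv j (w | s') hw hne t ht ht'
    · rw [inl_mem_pad] at hv hw
      obtain ⟨z, hz⟩ := h.meet i v hv j w hw (fun hc => hne (by rw [hc.1, hc.2]; simp)) t ht ht'
      rcases z with z | z
      · exact ⟨Sum.inl (Sum.inl z), hz⟩
      · exact ⟨Sum.inr z, hz⟩
    · rw [inl_mem_pad] at hv
      rw [inr_mem_pad] at hw
      subst hw
      exact ⟨Sum.inr s'.1, newold s' i v hv t ht' ht⟩
    · rw [inl_mem_pad] at hw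
      rw [inr_mem_pad] at hv
      subst hv
      exact ⟨Sum.inr s.1, newold s j w hw t ht ht'⟩
    · rw [inr_mem_pad] at hv hw
      subst hv
      subst hw
      have hss : s ≠ s' := fun hc => hne (by rw [hc]; simp)
      exact ⟨Sum.inr s.1, newnew s s' hss t ht ht'⟩

end Pool.Agent.Y604.SLR
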