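import Pool.Agent.Y604.SLR

/-!
# Translated copies of the ten-vertex example
-/

set_option autoImplicit false

namespace Pool.Agent.Y604.SLR

open Pool.Agent.Results.MP_3387b7_co

/-- the edges: `k` copies of the sixteen edges of the example, placed at the indices given by `f` -/
noncomputable def cop {k m : ℕ} (f : Fin k × Fin 16 → Fin m) (i : Fin m) : Finset (Fin k × Fin 10) :=
  match Function.partialInv f i with
  | none => ∅
  | some x => (NoStraightLine.H0.edge x.2).map ⟨fun v => (x.1, v), Prod.mk_right_injective x.1⟩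

theorem cop_some {k m : ℕ} {f : Fin k × Fin 16 → Fin m} (hf : Function.Injective f)
    (x : Fin k × Fin 16) : cop f (f x) =
      (NoStraightLine.H0.edge x.2).map ⟨fun v => (x.1, v), Prod.mk_right_injective x.1⟩ := by
  have : Function.partialInv f (f x) = some x := Function.partialInv_left hf x
  simp only [cop, this]

theorem cop_none {k m : ℕ} {f : Fin k × Fin 16 → Fin m} {i : Fin m} (hi : i ∉ Set.range f) :
    cop f i = ∅ := by
  have : Function.partialInv f i = none := by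
    rw [Function.partialInv, dif_neg]
    rintro ⟨x, hx⟩; exact hi ⟨x, hx⟩
  simp only [cop, this]

theorem mem_cop {k m : ℕ} {f : Fin k × Fin 16 → Fin m} (hf : Function.Injective f) {i : Fin m}
    {v : Fin k × Fin 10} (hv : v ∈ cop f i) :
    ∃ j, i = f (v.1, j) ∧ v.2 ∈ NoStraightLine.H0.edge j := by
  by_cases hi : i ∈ Set.range f
  · obtain ⟨x, rfl⟩ := hi
    rw [cop_some hf, Finset.mem_map] at hv
    obtain ⟨w, hw, rfl⟩ := hv
    exact ⟨x.2, rfl, hw⟩
  · rw [cop_none hi] at hv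
    simp at hv

theorem mem_cop' {k m : ℕ} {f : Fin k × Fin 16 → Fin m} (hf : Function.Injective f) {c c' : Fin k}
    {v : Fin 10} {j : Fin 16} :
    (c', v) ∈ cop f (f (c, j)) ↔ c' = c ∧ v ∈ NoStraightLine.H0.edge j := by
  rw [cop_some hf, Finset.mem_map]
  constructor
  · rintro ⟨w, hw, h⟩
    have h1 := congrArg Prod.fst h
    have h2 := congrArg Prod.snd h
    simp only [Function.Embedding.coeFn_mk] at h1 h2
    exact ⟨h1.symm, h2 ▸ hw⟩
  · rintro ⟨rfl, h⟩
    exact ⟨v, h, rfl⟩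

/-- positions of the nodes -/
noncomputable def cpos {k m : ℕ} (f : Fin k × Fin 16 → Fin m) :
    (Fin k × Fin 10) ⊕ Fin m → ℝ × ℝ
  | Sum.inl v => NoStraightLine.pos (Sum.inl v.2) + (1000 * ((v.1 : ℕ) : ℝ), 0)
  | Sum.inr i => match Function.partialInv f i with
    | none => (-1000 * (((i : ℕ) : ℝ) + 1), 0)
    | some x => NoStraightLine.pos (Sum.inr x.2) + (1000 * ((x.1 : ℕ) : ℝ), 0)

theorem cpos_some {k m : ℕ} {f : Fin k × Fin 16 → Fin m} (hf : Function.Injective f)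
    (x : Fin k × Fin 16) : cpos f (Sum.inr (f x)) =
      NoStraightLine.pos (Sum.inr x.2) + (1000 * ((x.1 : ℕ) : ℝ), 0) := by
  have : Function.partialInv f (f x) = some x := Function.partialInv_left hf x
  simp only [cpos, this]

theorem cpos_none {k m : ℕ} {f : Fin k × Fin 16 → Fin m} {i : Fin m} (hi : i ∉ Set.range f) :
    cpos f (Sum.inr i) = (-1000 * (((i : ℕ) : ℝ) + 1), 0) := by
  have : Function.partialInv f i = none := by
    rw [Function.partialInv, dif_neg]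
    rintro ⟨x, hx⟩; exact hi ⟨x, hx⟩
  simp only [cpos, this]

/-- the node of copy `c` given by the node `z` of the example -/
def nd {k m : ℕ} (f : Fin k × Fin 16 → Fin m) (c : Fin k) :
    Fin 10 ⊕ Fin 16 → (Fin k × Fin 10) ⊕ Fin m
  | Sum.inl v => Sum.inl (c, v)
  | Sum.inr j => Sum.inr (f (c, j))

theorem cpos_nd {k m : ℕ} {f : Fin k × Fin 16 → Fin m} (hf : Function.Injective f) (c : Fin k)
    (z : Fin 10 ⊕ Fin 16) :
    cpos f (nd f c z) = NoStraightLine.pos z + (1000 * ((c : ℕ) : ℝ), 0) := by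
  rcases z with v | j
  · rfl
  · exact cpos_some hf (c, j)

/-- every node is in a copy or is an extra one -/
theorem node_cases {k m : ℕ} (f : Fin k × Fin 16 → Fin m) (z : (Fin k × Fin 10) ⊕ Fin m) :
    (∃ c z0, z = nd f c z0) ∨ ∃ i, i ∉ Set.range f ∧ z = Sum.inr i := by
  rcases z with v | i
  · exact Or.inl ⟨v.1, Sum.inl v.2, rfl⟩
  · by_cases hi : i ∈ Set.range f
    · obtain ⟨x, rfl⟩ := hi
      exact Or.inl ⟨x.1, Sum.inr x.2, rfl⟩
    · exact Or.inr ⟨i, hi, rfl⟩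

theorem PZ_small : ∀ z : Fin 10 ⊕ Fin 16, -80 ≤ (NoStraightLine.PZ z).1 ∧
    (NoStraightLine.PZ z).1 ≤ 80 := by decide +kernel

theorem pos_small (z : Fin 10 ⊕ Fin 16) : -80 ≤ (NoStraightLine.pos z).1 ∧
    (NoStraightLine.pos z).1 ≤ 80 := by
  have h := PZ_small z
  simp only [NoStraightLine.pos, NoStraightLine.toR]
  exact ⟨by exact_mod_cast h.1, by exact_mod_cast h.2⟩

theorem nd_small {k m : ℕ} {f : Fin k × Fin 16 → Fin m} (hf : Function.Injective f) (c : Fin k)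
    (z : Fin 10 ⊕ Fin 16) : 1000 * ((c : ℕ) : ℝ) - 80 ≤ (cpos f (nd f c z)).1 ∧
      (cpos f (nd f c z)).1 ≤ 1000 * ((c : ℕ) : ℝ) + 80 := by
  rw [cpos_nd hf]
  have h := pos_small z
  simp only [Prod.fst_add]
  constructor <;> linarith [h.1, h.2]

/-- the copy is determined by the first coordinate -/
theorem copy_eq {c c' : ℕ} {x : ℝ} (h1 : 1000 * (c : ℝ) - 80 ≤ x) (h2 : x ≤ 1000 * (c : ℝ) + 80)
    (h3 : 1000 * (c' : ℝ) - 80 ≤ x) (h4 : x ≤ 1000 * (c' : ℝ) + 80) : c = c' := by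
  rcases lt_trichotomy c c' with h | h | h
  · exfalso
    have : (c : ℝ) + 1 ≤ (c' : ℝ) := by exact_mod_cast h
    linarith
  · exact h
  · exfalso
    have : (c' : ℝ) + 1 ≤ (c : ℝ) := by exact_mod_cast h
    linarith

theorem seg_small {a b t : ℝ × ℝ} {l u : ℝ} (ha : l ≤ a.1 ∧ a.1 ≤ u) (hb : l ≤ b.1 ∧ b.1 ≤ u)
    (ht : t ∈ segment ℝ a b) : l ≤ t.1 ∧ t.1 ≤ u := by
  obtain ⟨s, r, hs, hr, hsr, rfl⟩ := ht
  have hs' : s = 1 - r := by linarith
  subst hs'
  simp only [Prod.fst_add, Prod.smul_fst, smul_eq_mul]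
  constructor
  · nlinarith [mul_le_mul_of_nonneg_left ha.1 hs, mul_le_mul_of_nonneg_left hb.1 hr]
  · nlinarith [mul_le_mul_of_nonneg_left ha.2 hs, mul_le_mul_of_nonneg_left hb.2 hr]

theorem seg_translate {a b t w : ℝ × ℝ} (ht : t ∈ segment ℝ (a + w) (b + w)) :
    t - w ∈ segment ℝ a b := by
  obtain ⟨s, r, hs, hr, hsr, rfl⟩ := ht
  refine ⟨s, r, hs, hr, hsr, ?_⟩
  have hs' : s = 1 - r := by linarith
  subst hs'
  module

theorem cop_SD {k m : ℕ} {f : Fin k × Fin 16 → Fin m} (hf : Function.Injective f) :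
    SD (cop f) (cpos f) := by
  have extra : ∀ {i : Fin m}, i ∉ Set.range f → (cpos f (Sum.inr i)).1 ≤ -1000 := by
    intro i hi
    rw [cpos_none hi]
    have : (0 : ℝ) ≤ ((i : ℕ) : ℝ) := Nat.cast_nonneg _
    simp only
    linarith
  have nonneg : ∀ c : Fin k, (0 : ℝ) ≤ ((c : ℕ) : ℝ) := fun c => Nat.cast_nonneg _
  -- a segment of the copy `c`
  have inseg : ∀ (c : Fin k) (v : Fin 10) (j : Fin 16) (t : ℝ × ℝ),
      t ∈ segment ℝ (cpos f (Sum.inl (c, v))) (cpos f (Sum.inr (f (c, j)))) →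
      (1000 * ((c : ℕ) : ℝ) - 80 ≤ t.1 ∧ t.1 ≤ 1000 * ((c : ℕ) : ℝ) + 80) ∧
      t - (1000 * ((c : ℕ) : ℝ), 0) ∈ segment ℝ (NoStraightLine.pos (Sum.inl v))
        (NoStraightLine.pos (Sum.inr j)) := by
    intro c v j t ht
    refine ⟨seg_small (nd_small hf c (Sum.inl v)) (nd_small hf c (Sum.inr j)) ht, ?_⟩
    rw [show (Sum.inl (c, v) : (Fin k × Fin 10) ⊕ Fin m) = nd f c (Sum.inl v) from rfl,
      show (Sum.inr (f (c, j)) : (Fin k × Fin 10) ⊕ Fin m) = nd f c (Sum.inr j) from rfl,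
      cpos_nd hf, cpos_nd hf] at ht
    exact seg_translate ht
  refine ⟨?_, ?_, ?_⟩
  · intro z z' h
    rcases node_cases f z with ⟨c, z0, rfl⟩ | ⟨i, hi, rfl⟩ <;>
      rcases node_cases f z' with ⟨c', z0', rfl⟩ | ⟨i', hi', rfl⟩
    · have h1 := nd_small hf c z0
      have h2 := nd_small hf c' z0'
      rw [← h] at h2
      have hc : c = c' := Fin.ext (copy_eq h1.1 h1.2 h2.1 h2.2)
      subst hc
      rw [cpos_nd hf, cpos_nd hf] at h
      rw [NoStraightLine.pos_inj (add_right_cancel h)]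
    · exfalso
      have h1 := nd_small hf c z0
      have h2 := extra hi'
      rw [← h] at h2
      linarith [nonneg c, h1.1]
    · exfalso
      have h1 := nd_small hf c' z0'
      have h2 := extra hi
      rw [h] at h2
      linarith [nonneg c', h1.1]
    · rw [cpos_none hi, cpos_none hi'] at h
      have h1 := congrArg Prod.fst h
      simp only at h1
      have h2 : ((i : ℕ) : ℝ) = ((i' : ℕ) : ℝ) := by linarith
      have h3 : (i : ℕ) = (i' : ℕ) := by exact_mod_cast h2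
      rw [Fin.ext h3]
  · intro i v hv z hz
    obtain ⟨j, rfl, hj⟩ := mem_cop hf hv
    obtain ⟨c, v⟩ := v
    obtain ⟨h1, h2⟩ := inseg c v j _ hz
    rcases node_cases f z with ⟨c', z0, rfl⟩ | ⟨i, hi, rfl⟩
    · have h3 := nd_small hf c' z0
      have hc : c = c' := Fin.ext (copy_eq h1.1 h1.2 h3.1 h3.2)
      subst hc
      rw [cpos_nd hf, add_sub_cancel_right] at h2
      rcases NoStraightLine.notin_arc hj h2 with h4 | h4
      · left; rw [h4]; rfl
      · right; rw [h4]; rfl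
    · exfalso
      linarith [extra hi, nonneg c, h1.1]
  · intro i v hv i' w hw hne t ht ht'
    obtain ⟨j, rfl, hj⟩ := mem_cop hf hv
    obtain ⟨j', rfl, hj'⟩ := mem_cop hf hw
    obtain ⟨c, v⟩ := v
    obtain ⟨c', w⟩ := w
    obtain ⟨h1, h2⟩ := inseg c v j _ ht
    obtain ⟨h3, h4⟩ := inseg c' w j' _ ht'
    have hc : c = c' := Fin.ext (copy_eq h1.1 h1.2 h3.1 h3.2)
    subst hc
    obtain ⟨z, hz⟩ := NoStraightLine.arcs_meet hj hj'
      (fun hc => hne ⟨Prod.ext rfl hc.1, by rw [hc.2]⟩) h2 h4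
    refine ⟨nd f c z, ?_⟩
    rw [cpos_nd hf, ← hz, sub_add_cancel]

end Pool.Agent.Y604.SLR
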