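import Pool.Agent.Y604.SLR2

/-!
# All sequences of edge sizes
-/

set_option autoImplicit false

namespace Pool.Agent.Y604.SLR

open Pool.Agent.Results.MP_3387b7_co

theorem card_H0 :
    (∀ a : Fin 4, (NoStraightLine.H0.edge (finSumFinEquiv (m := 4) (n := 12) (Sum.inl a))).card
      = 3) ∧
    ∀ a : Fin 12, (NoStraightLine.H0.edge (finSumFinEquiv (m := 4) (n := 12) (Sum.inr a))).card
      = 2 := by
  constructor <;> decide +kernel

theorem sum_H0 : ∑ j : Fin 16, (NoStraightLine.H0.edge j).card = 36 := by decide +kernel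

/-- the places of the copies -/
theorem places {k m : ℕ} (d : Fin m → ℕ)
    (h2 : 16 * k ≤ (Finset.univ.filter fun i => 2 ≤ d i).card)
    (h3 : 4 * k ≤ (Finset.univ.filter fun i => 3 ≤ d i).card) :
    ∃ f : Fin k × Fin 16 → Fin m, Function.Injective f ∧
      ∀ x, (NoStraightLine.H0.edge x.2).card ≤ d (f x) := by
  obtain ⟨T, hT, hTc⟩ := Finset.exists_subset_card_eq h3
  have hTS : T ⊆ Finset.univ.filter fun i => 2 ≤ d i := by
    intro i hi
    have := hT hi
    simp only [Finset.mem_filter, Finset.mem_univ, true_and] at this ⊢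
    omega
  have hU : 12 * k ≤ ((Finset.univ.filter fun i => 2 ≤ d i) \ T).card := by
    rw [Finset.card_sdiff_of_subset hTS, hTc]
    omega
  obtain ⟨a⟩ : Nonempty (Fin k × Fin 4 ↪ {i // i ∈ T}) :=
    Function.Embedding.nonempty_of_card_le (by simp [hTc, mul_comm])
  obtain ⟨b⟩ : Nonempty (Fin k × Fin 12 ↪ {i // i ∈ (Finset.univ.filter fun i => 2 ≤ d i) \ T}) :=
    Function.Embedding.nonempty_of_card_le (by
      rw [Fintype.card_prod, Fintype.card_fin, Fintype.card_fin, Fintype.card_coe]
      linarith)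
  refine ⟨fun x => match finSumFinEquiv.symm x.2 with
    | Sum.inl y => (a (x.1, y)).1
    | Sum.inr y => (b (x.1, y)).1, ?_, ?_⟩
  · rintro ⟨c, j⟩ ⟨c', j'⟩ h
    obtain ⟨y, rfl⟩ := (finSumFinEquiv (m := 4) (n := 12)).surjective j
    obtain ⟨y', rfl⟩ := (finSumFinEquiv (m := 4) (n := 12)).surjective j'
    simp only [Equiv.symm_apply_apply] at h
    rcases y with y | y <;> rcases y' with y' | y' <;> simp only at h
    · have h1 := a.injective (Subtype.ext h)
      rw [Prod.mk.injEq] at h1
      rw [h1.1, h1.2]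
    · exfalso
      have h1 := (b (c', y')).2
      rw [← h, Finset.mem_sdiff] at h1
      exact h1.2 (a (c, y)).2
    · exfalso
      have h1 := (b (c, y)).2
      rw [h, Finset.mem_sdiff] at h1
      exact h1.2 (a (c', y')).2
    · have h1 := b.injective (Subtype.ext h)
      rw [Prod.mk.injEq] at h1
      rw [h1.1, h1.2]
  · rintro ⟨c, j⟩
    obtain ⟨y, rfl⟩ := (finSumFinEquiv (m := 4) (n := 12)).surjective j
    simp only [Equiv.symm_apply_apply]
    rcases y with y | y
    · rw [card_H0.1 y]
      have h1 := hT (a (c, y)).2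
      simpa using h1
    · rw [card_H0.2 y]
      have h1 := (Finset.mem_sdiff.1 (b (c, y)).2).1
      simpa using h1

theorem card_cop {k m : ℕ} {f : Fin k × Fin 16 → Fin m} (hf : Function.Injective f)
    (x : Fin k × Fin 16) : (cop f (f x)).card = (NoStraightLine.H0.edge x.2).card := by
  rw [cop_some hf, Finset.card_map]

theorem sum_cop {k m : ℕ} {f : Fin k × Fin 16 → Fin m} (hf : Function.Injective f) :
    ∑ i, (cop f i).card = 36 * k := by
  have h1 : ∑ x : Fin k × Fin 16, (NoStraightLine.H0.edge x.2).card = ∑ i, (cop f i).card := by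
    refine Finset.sum_of_injOn f hf.injOn (fun _ _ => by simp) ?_ ?_
    · intro i _ hi
      rw [cop_none, Finset.card_empty]
      rintro ⟨x, rfl⟩
      exact hi ⟨x, by simp, rfl⟩
    · intro x _
      rw [card_cop hf]
  rw [← h1, Fintype.sum_prod_type]
  simp only [sum_H0, Finset.sum_const, Finset.card_univ, Fintype.card_fin, smul_eq_mul]
  ring

/-- **Main theorem.** -/
theorem main (k m : ℕ) (d : Fin m → ℕ)
    (h2 : 16 * k ≤ (Finset.univ.filter fun i => 2 ≤ d i).card)
    (h3 : 4 * k ≤ (Finset.univ.filter fun i => 3 ≤ d i).card) :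
    ∃ (V : Type) (_ : Fintype V) (E : Fin m → Finset V), (∀ i, (E i).card = d i) ∧
      Fintype.card V + 26 * k = ∑ i, d i ∧
      (∀ i j, i ≠ j → ∀ u v, u ∈ E i → u ∈ E j → v ∈ E i → v ∈ E j → u = v) ∧
      (∃ pos : V ⊕ Fin m → ℝ × ℝ, SD E pos) ∧
      ∀ (J : Finset (Fin m)) (p : V → ℝ × ℝ) (s : {i // i ∈ J} → Set (ℝ × ℝ)),
        Function.Injective p → (∀ i, ∃ a b : ℝ × ℝ, a ≠ b ∧ s i = segment ℝ a b) →
        (∀ i j, i ≠ j → (s i ∩ s j).Subsingleton ∧ ∀ t ∈ s i ∩ s j, ∃ v, t = p v) →
        (∀ v i, p v ∈ s i ↔ v ∈ E i.1) → J.card + k ≤ m := by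
  obtain ⟨f, hf, hd⟩ := places d h2 h3
  have hle : ∀ i, (cop f i).card ≤ d i := by
    intro i
    by_cases hi : i ∈ Set.range f
    · obtain ⟨x, rfl⟩ := hi
      rw [card_cop hf]; exact hd x
    · rw [cop_none hi]; simp
  set c : Fin m → ℕ := fun i => d i - (cop f i).card with hc
  refine ⟨_, inferInstance, pad (cop f) c, ?_, ?_, ?_, pad_SD (cop_SD hf) c, ?_⟩
  · intro i
    rw [card_pad]
    have := hle i
    simp only [hc]
    omega
  · rw [Fintype.card_sum, Fintype.card_prod, Fintype.card_fin, Fintype.card_fin,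
      Fintype.card_sigma]
    simp only [Fintype.card_fin]
    have h4 : ∑ i, c i + ∑ i, (cop f i).card = ∑ i, d i := by
      rw [← Finset.sum_add_distrib]
      refine Finset.sum_congr rfl fun i _ => ?_
      have := hle i
      simp only [hc]
      omega
    rw [sum_cop hf] at h4
    omega
  · intro i j hij u v hui huj hvi hvj
    have priv : ∀ {w}, (Sum.inr w : (Fin k × Fin 10) ⊕ (Σ i, Fin (c i))) ∈ pad (cop f) c i →
        Sum.inr w ∈ pad (cop f) c j → False := by
      intro w h4 h5
      rw [inr_mem_pad] at h4 h5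
      exact hij (h4.symm.trans h5)
    rcases u with u | u
    · rcases v with v | v
      · rw [inl_mem_pad] at hui huj hvi hvj
        obtain ⟨a, rfl, ha⟩ := mem_cop hf hui
        obtain ⟨b, rfl, hb⟩ := mem_cop hf huj
        obtain ⟨u1, u2⟩ := u
        obtain ⟨v1, v2⟩ := v
        rw [mem_cop' hf] at hvi hvj
        obtain ⟨rfl, hva⟩ := hvi
        have hab : a ≠ b := fun h => hij (by rw [h])
        have := NoStraightLine.H0_linear a b hab u2 v2 ha hb hva hvj.2
        rw [this]
      · exact (priv hvi hvj).elim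
    · exact (priv hui huj).elim
  · intro J p s hp hs hst hiff
    have hex : ∀ a : Fin k, ∃ j : Fin 16, f (a, j) ∉ J := by
      intro a
      by_contra hcon
      push Not at hcon
      refine NoStraightLine.no_rep (p := fun v => p (Sum.inl (a, v)))
        (s := fun j => s ⟨f (a, j), hcon j⟩) ⟨?_, ?_, ?_, ?_⟩
      · intro v w h
        have h4 := Sum.inl.inj (hp h)
        rw [Prod.mk.injEq] at h4
        exact h4.2
      · intro j; exact hs _
      · intro i j hij
        have hij' : f (a, i) ≠ f (a, j) := fun h => by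
          have h4 := hf h
          rw [Prod.mk.injEq] at h4
          exact hij h4.2
        obtain ⟨h4, h5⟩ := hst ⟨f (a, i), hcon i⟩ ⟨f (a, j), hcon j⟩
          (fun h => hij' (congrArg Subtype.val h))
        refine ⟨h4, fun t ht => ?_⟩
        obtain ⟨v, rfl⟩ := h5 t ht
        have h6 := (hiff v _).1 ht.1
        have h7 := (hiff v _).1 ht.2
        simp only at h6 h7
        rcases v with v | v
        · rw [inl_mem_pad] at h6
          obtain ⟨v1, v2⟩ := v
          rw [mem_cop' hf] at h6
          obtain ⟨rfl, -⟩ := h6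
          exact ⟨v2, rfl⟩
        · exfalso
          rw [inr_mem_pad] at h6 h7
          exact hij' (h6.symm.trans h7)
      · intro v j
        show p (Sum.inl (a, v)) ∈ s ⟨f (a, j), hcon j⟩ ↔ _
        rw [hiff, inl_mem_pad, mem_cop' hf]
        simp
    choose g hg using hex
    have hinj : Function.Injective fun a => f (a, g a) := by
      intro a b h
      have h4 := hf h
      rw [Prod.mk.injEq] at h4
      exact h4.1
    have h4 : (Finset.univ.image fun a => f (a, g a)) ⊆ Jᶜ := by
      intro i hi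
      rw [Finset.mem_image] at hi
      obtain ⟨a, -, rfl⟩ := hi
      rw [Finset.mem_compl]
      exact hg a
    have h5 := Finset.card_le_card h4
    rw [Finset.card_image_of_injective _ hinj, Finset.card_univ, Fintype.card_fin,
      Finset.card_compl, Fintype.card_fin] at h5
    have h6 := J.card_le_univ
    rw [Fintype.card_fin] at h6
    omega

end Pool.Agent.Y604.SLR
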